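import Pool.Agent.Helper63.Sey2.Goals

set_option autoImplicit false

namespace Pool.Agent.Helper49.Sey2

open Pool.Agent.Helper63.Sey2

theorem goalPIECES : GoalPIECES := by
  classical
  intro V _ m B h f hB hh
  set cs : Fin m → ℕ := fun i => Fintype.card {v // f v = i} with hcs
  let c : ∀ i : Fin m, {v // f v = i} ≃ Fin (cs i) := fun i => Fintype.equivFin _
  set p : V → ℕ := fun v => (c (f v) ⟨v, rfl⟩).val with hp
  have hplt : ∀ v, p v < cs (f v) := fun v => (c (f v) ⟨v, rfl⟩).isLt
  have hpc : ∀ i (w : {v // f v = i}), p w.1 = (c i w).val := by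
    rintro i ⟨w, rfl⟩; rfl
  have hinj : ∀ u v, f u = f v → p u = p v → u = v := by
    intro u v h1 h2
    have e1 := hpc (f v) ⟨u, h1⟩
    have e2 := hpc (f v) ⟨v, rfl⟩
    have e3 : c (f v) ⟨u, h1⟩ = c (f v) ⟨v, rfl⟩ := by
      apply Fin.ext; rw [← e1, ← e2]; exact h2
    have := (c (f v)).injective e3
    exact congrArg Subtype.val this
  have hsurj : ∀ i q, q < cs i → ∃ v, f v = i ∧ p v = q := by
    intro i q hq
    refine ⟨((c i).symm ⟨q, hq⟩).1, ((c i).symm ⟨q, hq⟩).2, ?_⟩
    rw [hpc i, Equiv.apply_symm_apply]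
  have hlt : ∀ v, (p v % B) / h < B / h + 1 := by
    intro v
    have h1 : p v % B < B := Nat.mod_lt _ hB
    exact Nat.lt_succ_of_le (Nat.div_le_div_right h1.le)
  let g : V → (Σ i : Fin m, Fin (cs i / B)) ⊕ (Fin m × Fin (B / h + 1)) := fun v =>
    if hv : p v / B < cs (f v) / B then Sum.inl ⟨f v, ⟨p v / B, hv⟩⟩
    else Sum.inr (f v, ⟨(p v % B) / h, hlt v⟩)
  have hgl : ∀ v (hv : p v / B < cs (f v) / B), g v = Sum.inl ⟨f v, ⟨p v / B, hv⟩⟩ := by
    intro v hv; simp only [g]; rw [dif_pos hv]
  have hgr : ∀ v, ¬ (p v / B < cs (f v) / B) → g v = Sum.inr (f v, ⟨(p v % B) / h, hlt v⟩) := by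
    intro v hv; simp only [g]; rw [dif_neg hv]
  have hgl' : ∀ v i (a : Fin (cs i / B)), g v = Sum.inl ⟨i, a⟩ → f v = i ∧ p v / B = a.val := by
    intro v i a hv
    by_cases h1 : p v / B < cs (f v) / B
    · rw [hgl v h1] at hv
      have h2 := Sum.inl.inj hv
      obtain ⟨h3, h4⟩ := Sigma.mk.inj_iff.mp h2
      subst h3
      exact ⟨rfl, by rw [← eq_of_heq h4]⟩
    · rw [hgr v h1] at hv
      exact absurd hv (by simp)
  have hgr' : ∀ v i j, g v = Sum.inr (i, j) → f v = i ∧ (p v % B) / h = j.val ∧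
      p v / B = cs i / B := by
    intro v i j hv
    by_cases h1 : p v / B < cs (f v) / B
    · rw [hgl v h1] at hv
      exact absurd hv (by simp)
    · rw [hgr v h1] at hv
      have h2 := Sum.inr.inj hv
      obtain ⟨h3, h4⟩ := Prod.mk_inj.mp h2
      subst h3
      refine ⟨rfl, by rw [← h4], ?_⟩
      have h5 : p v / B ≤ cs (f v) / B := Nat.div_le_div_right (hplt v).le
      omega
  refine ⟨_, inferInstance, g, fun x => x.isLeft = true, ?_, ?_, ?_, ?_⟩
  · intro u v huv
    rcases hgv : g v with ⟨i, a⟩ | ⟨i, j⟩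
    · rw [hgv] at huv
      rw [(hgl' v i a hgv).1, (hgl' u i a huv).1]
    · rw [hgv] at huv
      rw [(hgr' v i j hgv).1, (hgr' u i j huv).1]
  · rintro (⟨i, a⟩ | ⟨i, j⟩) hbig
    · let F : {v // g v = Sum.inl ⟨i, a⟩} → Fin B := fun v => ⟨p v.1 % B, Nat.mod_lt _ hB⟩
      have hF : Function.Bijective F := by
        constructor
        · rintro ⟨u, hu⟩ ⟨v, hv⟩ huv
          have h1 : p u % B = p v % B := congrArg Fin.val huv
          have h2 := hgl' u i a hu
          have h3 := hgl' v i a hv
          have h4 : p u = p v := by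
            rw [← Nat.div_add_mod (p u) B, ← Nat.div_add_mod (p v) B, h2.2, h3.2, h1]
          exact Subtype.ext (hinj u v (h2.1.trans h3.1.symm) h4)
        · rintro ⟨r, hr⟩
          have h0 := a.isLt
          have h1 : (a.val + 1) * B ≤ cs i := by
            calc (a.val + 1) * B ≤ (cs i / B) * B := Nat.mul_le_mul_right _ h0
              _ ≤ cs i := Nat.div_mul_le_self _ _
          have h2 : B * a.val + r < cs i := by nlinarith
          obtain ⟨v, hv1, hv2⟩ := hsurj i _ h2
          have h3 : p v / B = a.val := by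
            rw [hv2, Nat.mul_add_div hB, Nat.div_eq_of_lt hr, add_zero]
          have h4 : p v % B = r := by
            rw [hv2, Nat.mul_add_mod, Nat.mod_eq_of_lt hr]
          have h5 : p v / B < cs (f v) / B := by rw [h3, hv1]; exact h0
          refine ⟨⟨v, ?_⟩, Fin.ext h4⟩
          rw [hgl v h5]
          subst hv1
          congr 2
          exact Fin.ext h3
      rw [Nat.card_eq_of_bijective F hF, Nat.card_eq_fintype_card, Fintype.card_fin]
    · simp at hbig
  · rintro (⟨i, a⟩ | ⟨i, j⟩) hbig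
    · simp at hbig
    · let F : {v // g v = Sum.inr (i, j)} → Fin h := fun v => ⟨(p v.1 % B) % h, Nat.mod_lt _ hh⟩
      have hF : Function.Injective F := by
        rintro ⟨u, hu⟩ ⟨v, hv⟩ huv
        have h1 : (p u % B) % h = (p v % B) % h := congrArg Fin.val huv
        have h2 := hgr' u i j hu
        have h3 := hgr' v i j hv
        have h4 : p u % B = p v % B := by
          rw [← Nat.div_add_mod (p u % B) h, ← Nat.div_add_mod (p v % B) h, h2.2.1, h3.2.1, h1]
        have h5 : p u = p v := by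
          rw [← Nat.div_add_mod (p u) B, ← Nat.div_add_mod (p v) B, h2.2.2, h3.2.2, h4]
        exact Subtype.ext (hinj u v (h2.1.trans h3.1.symm) h5)
      calc Nat.card {v // g v = Sum.inr (i, j)} ≤ Nat.card (Fin h) :=
            Nat.card_le_card_of_injective F hF
        _ = h := by rw [Nat.card_eq_fintype_card, Fintype.card_fin]
  · let F : {x : (Σ i : Fin m, Fin (cs i / B)) ⊕ (Fin m × Fin (B / h + 1)) // ¬ x.isLeft = true} →
        Fin m × Fin (B / h + 1) := fun x => match x with
        | ⟨Sum.inl y, hy⟩ => absurd rfl hy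
        | ⟨Sum.inr y, _⟩ => y
    have hF : Function.Injective F := by
      rintro ⟨x | x, hx⟩ ⟨y | y, hy⟩ hxy
      · exact absurd rfl hx
      · exact absurd rfl hx
      · exact absurd rfl hy
      · have : x = y := hxy
        subst this; rfl
    calc _ ≤ Nat.card (Fin m × Fin (B / h + 1)) := Nat.card_le_card_of_injective F hF
      _ = m * (B / h + 1) := by
        rw [Nat.card_eq_fintype_card, Fintype.card_prod, Fintype.card_fin, Fintype.card_fin]

end Pool.Agent.Helper49.Sey2
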